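import Pool.Agent.W588.HT.Box

/-!
# A sum over integers is the integral over the lower side of a rectangle (job CX4)

The part `hmain` of the proof of `Pool.Agent.N789.VS.lapw'`, for one `N` and a general function.
-/

set_option autoImplicit false

namespace Pool.Agent.N608.CX

open Filter Topology Metric Set MeasureTheory Pool.Agent.W709.VC Pool.Agent.W588.HT
open scoped Real Interval

/-- the kernel plus one on the half-integer lines -/
theorem kk1_half (n : ℤ) (y : ℝ) :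
    ‖kk (((n - 1 / 2 : ℝ) : ℂ) + y * Complex.I) + 1‖ ≤ Real.exp (-(2 * π * max y 0)) := by
  have hne := EE_half_ne n y
  have e3 : kk (((n - 1 / 2 : ℝ) : ℂ) + y * Complex.I) + 1 =
      ee (((n - 1 / 2 : ℝ) : ℂ) + y * Complex.I) / EE (((n - 1 / 2 : ℝ) : ℂ) + y * Complex.I) := by
    unfold kk
    rw [eq_div_iff hne, add_mul, one_mul, one_div, inv_mul_cancel₀ hne]
    unfold EE
    ring
  rw [e3, norm_div, EE_half, ee_half, norm_neg, norm_neg, Complex.norm_real, Complex.norm_real,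
    Real.norm_eq_abs, Real.norm_eq_abs, abs_of_pos (Real.exp_pos _),
    abs_of_pos (by positivity)]
  have h0 : 0 < Real.exp (-(2 * π * y)) := Real.exp_pos _
  rw [div_le_iff₀ (by positivity)]
  have hpi := Real.pi_pos
  rcases le_total y 0 with hy | hy
  · rw [max_eq_right hy]
    simp
  · rw [max_eq_left hy]
    nlinarith [mul_pos h0 h0]

/-- job CX4, the statement `Pool.Agent.N566.CX.S_SIW` -/
theorem siwCore : ∀ (F : ℂ → ℂ) (U : Set ℂ) (N a b : ℕ) (h T : ℝ), IsOpen U →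
  DifferentiableOn ℂ F U → 0 < N → a ≤ b → 0 < h → Real.exp (-(2 * π * N * h)) ≤ 1 / 2 →
  0 ≤ T →
  (∀ x y : ℝ, ((a : ℝ) - 1 / 2) / N ≤ x → x ≤ ((b : ℝ) - 1 / 2) / N → |y| ≤ h →
    (x : ℂ) + y * Complex.I ∈ U) →
  (∀ y : ℝ, |y| ≤ h →
    ‖F ((((a : ℝ) - 1 / 2) / N : ℝ) + y * Complex.I)‖ * Real.exp (-(2 * π * N * max y 0)) ≤ T ∧
    ‖F ((((b : ℝ) - 1 / 2) / N : ℝ) + y * Complex.I)‖ * Real.exp (-(2 * π * N * max y 0)) ≤ T) →
  (∀ x : ℝ, ((a : ℝ) - 1 / 2) / N ≤ x → x ≤ ((b : ℝ) - 1 / 2) / N →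
    ‖F (x + h * Complex.I)‖ * Real.exp (-(2 * π * N * h)) ≤ T ∧
    ‖F (x - h * Complex.I)‖ * Real.exp (-(2 * π * N * h)) ≤ T) →
  ‖∑ d ∈ Finset.Ico a b, F ((d : ℂ) / N) -
    N * ∫ x in (((a : ℝ) - 1 / 2) / N)..(((b : ℝ) - 1 / 2) / N), F (x - h * Complex.I)‖ ≤
    T * (4 * ((b : ℝ) - a) + 4 * N * h) := by
  intro F U N a b h T hU hF hN0' hAB hh h8 hT0 hK hsd htb
  have hpi := Real.pi_pos
  have hN : (1 : ℝ) ≤ N := by exact_mod_cast hN0'
  have hN0 : (N : ℝ) ≠ 0 := by positivity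
  have hNc : (N : ℂ) ≠ 0 := by exact_mod_cast hN0
  set α : ℝ := ((a : ℝ) - 1 / 2) / N with hα
  set β : ℝ := ((b : ℝ) - 1 / 2) / N with hβ
  have hαN : (a : ℝ) - 1 / 2 = N * α := by simp only [hα]; field_simp
  have hβN : (b : ℝ) - 1 / 2 = N * β := by simp only [hβ]; field_simp
  set f : ℂ → ℂ := fun w => F (w / N) with hf
  set V : Set ℂ := (fun w : ℂ => w / N) ⁻¹' U with hV
  have hVo : IsOpen V := hU.preimage (by fun_prop)
  have hfd : DifferentiableOn ℂ f V := hF.comp (by fun_prop) (fun w hw => hw)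
  have hNh : 0 < h * N := by positivity
  have hdiv : ∀ x y : ℝ, ((x : ℂ) + y * Complex.I) / N = ((x / N : ℝ) : ℂ) + ((y / N : ℝ) : ℂ) *
      Complex.I := by
    intro x y; push_cast; field_simp
  have hyb : ∀ y : ℝ, |y| ≤ h * N → |y / N| ≤ h := by
    intro y hy
    rw [abs_div, Nat.abs_cast, div_le_iff₀ (by positivity)]
    exact hy
  have hxb : ∀ x : ℝ, (a : ℝ) - 1 / 2 ≤ x → x ≤ b - 1 / 2 → α ≤ x / N ∧ x / N ≤ β := by
    intro x hx1 hx2
    constructor
    · rw [le_div_iff₀ (by positivity)]; linarith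
    · rw [div_le_iff₀ (by positivity)]; linarith
  have hin : ∀ x y : ℝ, (a : ℝ) - 1 / 2 ≤ x → x ≤ b - 1 / 2 → |y| ≤ h * N →
      (x : ℂ) + y * Complex.I ∈ V := by
    intro x y hx1 hx2 hy
    show ((x : ℂ) + y * Complex.I) / N ∈ U
    rw [hdiv]
    exact hK _ _ (hxb x hx1 hx2).1 (hxb x hx1 hx2).2 (hyb y hy)
  have hABr : (a : ℝ) - 1 / 2 ≤ (b : ℝ) - 1 / 2 := by
    have : (a : ℝ) ≤ b := by exact_mod_cast hAB
    linarith
  have hsum := sum_rect hVo hfd hAB (H := h * N) hNh hin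
  have hsum' : (∑ d ∈ Finset.Ico a b, F ((d : ℂ) / N)) = ∑ d ∈ Finset.Ico a b, f d := rfl
  -- the boundary
  have hBd : ∀ w ∈ Bd ((a : ℝ) - 1 / 2) ((b : ℝ) - 1 / 2) (-(h * N)) (h * N),
      ContinuousAt f w ∧ EE w ≠ 0 := by
    intro w hw
    constructor
    · apply hfd.continuousOn.continuousAt (hVo.mem_nhds _)
      rcases hw with ⟨x, hx, rfl⟩ | ⟨x, hx, rfl⟩ | ⟨y, hy, rfl⟩ | ⟨y, hy, rfl⟩
      · rw [uIcc_of_le hABr] at hx
        exact hin x _ hx.1 hx.2 (by rw [abs_neg, abs_of_pos hNh])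
      · rw [uIcc_of_le hABr] at hx
        exact hin x _ hx.1 hx.2 (by rw [abs_of_pos hNh])
      · rw [uIcc_of_le (by linarith)] at hy
        exact hin _ y hABr le_rfl (abs_le.2 ⟨hy.1, hy.2⟩)
      · rw [uIcc_of_le (by linarith)] at hy
        exact hin _ y le_rfl hABr (abs_le.2 ⟨hy.1, hy.2⟩)
    · exact EE_Bd (m := (a : ℤ)) (n := (b : ℤ)) hNh (by push_cast; exact hw)
  have hrf : rect f ((a : ℝ) - 1 / 2) ((b : ℝ) - 1 / 2) (-(h * N)) (h * N) = 0 := by
    have h3 := Complex.integral_boundary_rect_eq_zero_of_differentiableOn f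
      ⟨(a : ℝ) - 1 / 2, -(h * N)⟩ ⟨(b : ℝ) - 1 / 2, h * N⟩ (hfd.mono (by
        intro w hw
        rw [Complex.mem_reProdIm] at hw
        simp only at hw
        rw [uIcc_of_le hABr, uIcc_of_le (by linarith)] at hw
        have := hin w.re w.im hw.1.1 hw.1.2 (abs_le.2 ⟨hw.2.1, hw.2.2⟩)
        rwa [Complex.re_add_im] at this))
    simpa [rect] using h3
  have hRf : RI f ((a : ℝ) - 1 / 2) ((b : ℝ) - 1 / 2) (-(h * N)) (h * N) :=
    RI_of_cont fun w hw => (hBd w hw).1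
  have hRk : RI (fun w => f w * kk w) ((a : ℝ) - 1 / 2) ((b : ℝ) - 1 / 2) (-(h * N))
      (h * N) :=
    RI_of_cont fun w hw => (hBd w hw).1.mul (kk_cont (hBd w hw).2)
  have hsum2 : (∑ d ∈ Finset.Ico a b, F ((d : ℂ) / N)) =
      rect (fun w => f w * (kk w + 1)) ((a : ℝ) - 1 / 2) ((b : ℝ) - 1 / 2) (-(h * N))
        (h * N) := by
    have e1 := rect_add hRk hRf
    rw [hrf, add_zero] at e1
    rw [hsum', hsum, ← e1]
    apply rect_congr
    intro w _
    ring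
  set I0 : ℂ := ∫ x in α..β, F (x - h * Complex.I) with hI0
  -- scaling of the main term
  have hI1' : (N : ℂ) * I0 = ∫ x in ((a : ℝ) - 1 / 2)..((b : ℝ) - 1 / 2),
      f (x + ((-(h * N) : ℝ) : ℂ) * Complex.I) := by
    have e1 := intervalIntegral.integral_comp_div (a := (a : ℝ) - 1 / 2)
      (b := (b : ℝ) - 1 / 2) (fun x : ℝ => F (x - h * Complex.I)) hN0
    simp only [hI0]
    rw [Complex.real_smul] at e1
    rw [show ((N : ℝ) : ℂ) = (N : ℂ) by simp] at e1
    rw [← e1]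
    apply intervalIntegral.integral_congr
    intro x _
    simp only [hf]
    congr 1
    push_cast
    field_simp
    ring
  -- bound on the top and bottom lines
  have hexp : ∀ x c : ℝ, (a : ℝ) - 1 / 2 ≤ x → x ≤ b - 1 / 2 → (c = h ∨ c = -h) →
      ‖f (x + ((c * N : ℝ) : ℂ) * Complex.I)‖ * Real.exp (-(2 * π * (h * N))) ≤ T := by
    intro x c hx1 hx2 hc
    have hb := hxb x hx1 hx2
    have e1 : f (x + ((c * N : ℝ) : ℂ) * Complex.I) =
        F (((x / N : ℝ) : ℂ) + (c : ℂ) * Complex.I) := by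
      simp only [hf]
      rw [hdiv]
      congr 3
      field_simp
    have e2 : -(2 * π * (h * N)) = -(2 * π * N * h) := by ring
    rw [e1, e2]
    rcases hc with rfl | rfl
    · exact (htb _ hb.1 hb.2).1
    · have := (htb _ hb.1 hb.2).2
      push_cast at this ⊢
      rw [neg_mul, ← sub_eq_add_neg]
      exact this
  have h8' : Real.exp (-(2 * π * (h * N))) ≤ 1 / 2 := by
    have e2 : -(2 * π * (h * N)) = -(2 * π * N * h) := by ring
    rw [e2]; exact h8
  have hBA : |((b : ℝ) - 1 / 2) - ((a : ℝ) - 1 / 2)| ≤ (b : ℝ) - a := by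
    rw [abs_of_nonneg (by linarith)]
    linarith
  -- bottom
  have hbot : ‖∫ x in ((a : ℝ) - 1 / 2)..((b : ℝ) - 1 / 2),
      f (x + ((-(h * N) : ℝ) : ℂ) * Complex.I) * kk (x + ((-(h * N) : ℝ) : ℂ) * Complex.I)‖ ≤
      2 * T * ((b : ℝ) - a) := by
    refine (intervalIntegral.norm_integral_le_of_norm_le_const (C := 2 * T) ?_).trans
      (mul_le_mul_of_nonneg_left hBA (by positivity))
    intro x hx
    rw [uIoc_of_le hABr] at hx
    have e1 := hexp x (-h) hx.1.le hx.2 (Or.inr rfl)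
    rw [show -h * (N : ℝ) = -(h * N) by ring] at e1
    rw [norm_mul]
    have e2 : ‖kk (x + ((-(h * N) : ℝ) : ℂ) * Complex.I)‖ ≤ 2 * Real.exp (-(2 * π * (h * N))) := by
      unfold kk EE
      rw [norm_div, norm_one]
      have e3 := norm_sub_norm_le (ee (x + ((-(h * N) : ℝ) : ℂ) * Complex.I)) 1
      rw [ee_norm, norm_one] at e3
      have e4 : -(2 * π * -(h * N)) = 2 * π * (h * N) := by ring
      rw [e4] at e3
      set E : ℝ := Real.exp (2 * π * (h * N)) with hE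
      have e5 : Real.exp (-(2 * π * (h * N))) = E⁻¹ := by rw [Real.exp_neg]
      rw [e5] at h8' ⊢
      have hE0 : 0 < E := Real.exp_pos _
      have e6 : 2 ≤ E := by
        rw [inv_le_comm₀ hE0 (by norm_num)] at h8'
        norm_num at h8'
        exact h8'
      rw [div_le_iff₀ (by linarith)]
      calc (1 : ℝ) = 2 * E⁻¹ * (E / 2) := by field_simp
        _ ≤ 2 * E⁻¹ * ‖ee (x + ((-(h * N) : ℝ) : ℂ) * Complex.I) - 1‖ := by
          apply mul_le_mul_of_nonneg_left _ (by positivity)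
          linarith
    calc _ ≤ ‖f (x + ((-(h * N) : ℝ) : ℂ) * Complex.I)‖ * (2 * Real.exp (-(2 * π * (h * N)))) :=
          mul_le_mul_of_nonneg_left e2 (norm_nonneg _)
      _ = 2 * (‖f (x + ((-(h * N) : ℝ) : ℂ) * Complex.I)‖ * Real.exp (-(2 * π * (h * N)))) := by
        ring
      _ ≤ 2 * T := by linarith
  -- top
  have htop : ‖∫ x in ((a : ℝ) - 1 / 2)..((b : ℝ) - 1 / 2),
      f (x + ((h * N : ℝ) : ℂ) * Complex.I) * (kk (x + ((h * N : ℝ) : ℂ) * Complex.I) + 1)‖ ≤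
      2 * T * ((b : ℝ) - a) := by
    refine (intervalIntegral.norm_integral_le_of_norm_le_const (C := 2 * T) ?_).trans
      (mul_le_mul_of_nonneg_left hBA (by positivity))
    intro x hx
    rw [uIoc_of_le hABr] at hx
    have e1 := hexp x h hx.1.le hx.2 (Or.inl rfl)
    rw [norm_mul]
    have e2 : ‖kk (x + ((h * N : ℝ) : ℂ) * Complex.I) + 1‖ ≤
        2 * Real.exp (-(2 * π * (h * N))) := by
      have hne : ee (x + ((h * N : ℝ) : ℂ) * Complex.I) - 1 ≠ 0 := EE_ne_of_im hNh.ne'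
      have e3 : kk (x + ((h * N : ℝ) : ℂ) * Complex.I) + 1 =
          ee (x + ((h * N : ℝ) : ℂ) * Complex.I) /
            (ee (x + ((h * N : ℝ) : ℂ) * Complex.I) - 1) := by
        unfold kk EE
        field_simp
        ring
      rw [e3, norm_div]
      have e4 := norm_sub_norm_le 1 (ee (x + ((h * N : ℝ) : ℂ) * Complex.I))
      rw [norm_sub_rev, norm_one, ee_norm] at e4
      rw [ee_norm]
      set E : ℝ := Real.exp (-(2 * π * (h * N))) with hE
      have hE0 : 0 < E := Real.exp_pos _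
      rw [div_le_iff₀ (by linarith)]
      calc E = 2 * E * (1 / 2) := by ring
        _ ≤ 2 * E * ‖ee (x + ((h * N : ℝ) : ℂ) * Complex.I) - 1‖ := by
          apply mul_le_mul_of_nonneg_left _ (by positivity)
          linarith
    calc _ ≤ ‖f (x + ((h * N : ℝ) : ℂ) * Complex.I)‖ * (2 * Real.exp (-(2 * π * (h * N)))) :=
          mul_le_mul_of_nonneg_left e2 (norm_nonneg _)
      _ = 2 * (‖f (x + ((h * N : ℝ) : ℂ) * Complex.I)‖ * Real.exp (-(2 * π * (h * N)))) := by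
        ring
      _ ≤ 2 * T := by linarith
  -- vertical sides
  have hvert : ∀ (n : ℕ) (γ : ℝ), (n : ℝ) - 1 / 2 = N * γ →
      (∀ y : ℝ, |y| ≤ h → ‖F (γ + y * Complex.I)‖ *
        Real.exp (-(2 * π * N * max y 0)) ≤ T) →
      ‖∫ y in (-(h * N))..(h * N), f (((n - 1 / 2 : ℝ) : ℂ) + y * Complex.I) *
        (kk (((n - 1 / 2 : ℝ) : ℂ) + y * Complex.I) + 1)‖ ≤ T * (2 * h * N) := by
    intro n γ hγ hb
    have hlen : |h * N - -(h * N)| = 2 * h * N := by
      rw [sub_neg_eq_add, abs_of_pos (by positivity)]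
      ring
    rw [← hlen]
    apply intervalIntegral.norm_integral_le_of_norm_le_const
    intro y hy
    rw [uIoc_of_le (by linarith)] at hy
    have hy' : |y| ≤ h * N := abs_le.2 ⟨hy.1.le, hy.2⟩
    have e1 := kk1_half (n : ℤ) y
    rw [norm_mul]
    have e2 := hb _ (hyb y hy')
    have e5 : 2 * π * (N : ℝ) * max (y / N) 0 = 2 * π * max y 0 := by
      have : (N : ℝ) * max (y / N) 0 = max y 0 := by
        rw [mul_max_of_nonneg _ _ (Nat.cast_nonneg N), mul_zero]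
        congr 1
        field_simp
      rw [← this]
      ring
    rw [e5] at e2
    have e3 : ((n : ℝ) - 1 / 2) / N = γ := by rw [hγ]; field_simp
    have e6 : f (((n - 1 / 2 : ℝ) : ℂ) + y * Complex.I) =
        F (γ + ((y / N : ℝ) : ℂ) * Complex.I) := by
      simp only [hf]
      rw [hdiv, e3]
    have e4 : ‖kk (((n - 1 / 2 : ℝ) : ℂ) + y * Complex.I) + 1‖ ≤
        Real.exp (-(2 * π * max y 0)) := by
      have := e1
      push_cast at this ⊢
      exact this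
    rw [e6]
    exact (mul_le_mul_of_nonneg_left e4 (norm_nonneg _)).trans e2
  have hv1 := hvert b β hβN (fun y hy => (hsd y hy).2)
  have hv2 := hvert a α hαN (fun y hy => (hsd y hy).1)
  have hbsplit : (∫ x in ((a : ℝ) - 1 / 2)..((b : ℝ) - 1 / 2),
      f (x + ((-(h * N) : ℝ) : ℂ) * Complex.I) *
        (kk (x + ((-(h * N) : ℝ) : ℂ) * Complex.I) + 1)) =
      (∫ x in ((a : ℝ) - 1 / 2)..((b : ℝ) - 1 / 2),
      f (x + ((-(h * N) : ℝ) : ℂ) * Complex.I) * kk (x + ((-(h * N) : ℝ) : ℂ) * Complex.I)) +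
      N * I0 := by
    rw [hI1', ← intervalIntegral.integral_add hRk.1 hRf.1]
    apply intervalIntegral.integral_congr
    intro x _
    simp only
    ring
  rw [hsum2]
  unfold rect
  rw [hbsplit]
  have efin : ((∫ x in ((a : ℝ) - 1 / 2)..((b : ℝ) - 1 / 2),
      f (x + ((-(h * N) : ℝ) : ℂ) * Complex.I) * kk (x + ((-(h * N) : ℝ) : ℂ) * Complex.I)) +
      N * I0 -
      (∫ x in ((a : ℝ) - 1 / 2)..((b : ℝ) - 1 / 2),
      f (x + ((h * N : ℝ) : ℂ) * Complex.I) * (kk (x + ((h * N : ℝ) : ℂ) * Complex.I) + 1)) +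
      Complex.I * (∫ y in (-(h * N))..(h * N), f (((b - 1 / 2 : ℝ) : ℂ) + y * Complex.I) *
        (kk (((b - 1 / 2 : ℝ) : ℂ) + y * Complex.I) + 1)) -
      Complex.I * (∫ y in (-(h * N))..(h * N), f (((a - 1 / 2 : ℝ) : ℂ) + y * Complex.I) *
        (kk (((a - 1 / 2 : ℝ) : ℂ) + y * Complex.I) + 1))) - N * I0 =
      (∫ x in ((a : ℝ) - 1 / 2)..((b : ℝ) - 1 / 2),
      f (x + ((-(h * N) : ℝ) : ℂ) * Complex.I) * kk (x + ((-(h * N) : ℝ) : ℂ) * Complex.I)) +
      (-(∫ x in ((a : ℝ) - 1 / 2)..((b : ℝ) - 1 / 2),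
      f (x + ((h * N : ℝ) : ℂ) * Complex.I) * (kk (x + ((h * N : ℝ) : ℂ) * Complex.I) + 1))) +
      Complex.I * (∫ y in (-(h * N))..(h * N), f (((b - 1 / 2 : ℝ) : ℂ) + y * Complex.I) *
        (kk (((b - 1 / 2 : ℝ) : ℂ) + y * Complex.I) + 1)) -
      Complex.I * (∫ y in (-(h * N))..(h * N), f (((a - 1 / 2 : ℝ) : ℂ) + y * Complex.I) *
        (kk (((a - 1 / 2 : ℝ) : ℂ) + y * Complex.I) + 1)) := by ring
  rw [efin]
  refine (norm_sub_le _ _).trans ?_
  refine (add_le_add_left (norm_add₃_le) _).trans ?_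
  rw [norm_mul, norm_mul, Complex.norm_I, one_mul, one_mul, norm_neg]
  calc _ ≤ 2 * T * ((b : ℝ) - a) + 2 * T * ((b : ℝ) - a) + T * (2 * h * N) +
        T * (2 * h * N) := by linarith
    _ = T * (4 * ((b : ℝ) - a) + 4 * N * h) := by ring

end Pool.Agent.N608.CX
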