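import Pool.Agent.N566.CX.Stm
import Pool.Agent.N608.CX.SiwCore

/-! Job CX4 of helper566. -/

set_option autoImplicit false

namespace Pool.Agent.N608.CX

/-- job CX4 -/
theorem siw : Pool.Agent.N566.CX.S_SIW := siwCore

end Pool.Agent.N608.CX
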